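import Pool.Agent.U397.NG.TENT

/-!
# Project NG, package ROWF: sums of the function `clamp` over the integers
-/

set_option autoImplicit false

namespace Pool.Agent.U397.NG

open Pool.Agent.U180.NG

theorem t_ROWF : S_ROWF := by
  intro δ x B hδ hδ1 hx
  have hu0 := Int.fract_nonneg x
  have hu1 := Int.fract_lt_one x
  have hxf : (⌊x⌋ : ℝ) + Int.fract x = x := Int.floor_add_fract x
  obtain ⟨hx1, hx2⟩ := abs_le.mp hx
  have hN1 : -(B : ℤ) + 1 ≤ ⌊x⌋ := by
    rw [Int.le_floor]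
    push_cast
    linarith
  have hN2 : ⌊x⌋ ≤ (B : ℤ) := by
    have : (⌊x⌋ : ℝ) ≤ B := by linarith
    exact_mod_cast this
  obtain ⟨c1, c2⟩ := fract_shift x δ hδ.le hδ1
  have hterm : ∀ n : ℤ, clamp δ (x - n) =
      (if n < ⌊x⌋ then δ else 0) + (if n = ⌊x⌋ then min δ (Int.fract x) else 0) := by
    intro n
    unfold clamp
    rcases lt_trichotomy n ⌊x⌋ with h | h | h
    · rw [if_pos h, if_neg h.ne]
      have h1 : n + 1 ≤ ⌊x⌋ := h
      have h2 : (n : ℝ) + 1 ≤ ⌊x⌋ := by exact_mod_cast h1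
      rw [max_eq_right (by linarith), min_eq_left (by linarith), add_zero]
    · rw [if_neg (by omega), if_pos h, zero_add, h]
      have : x - (⌊x⌋ : ℝ) = Int.fract x := rfl
      rw [this, max_eq_right hu0]
    · rw [if_neg (by omega), if_neg (by omega), add_zero]
      have h1 : ⌊x⌋ + 1 ≤ n := h
      have h2 : (⌊x⌋ : ℝ) + 1 ≤ n := by exact_mod_cast h1
      rw [max_eq_left (by linarith), min_eq_right hδ.le]
  rw [Finset.sum_congr rfl (fun n _ => hterm n), Finset.sum_add_distrib, Finset.sum_ite_eq',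
    if_pos (Finset.mem_Icc.mpr ⟨by omega, hN2⟩), ← Finset.sum_filter, Finset.sum_const]
  have hfil : (Finset.Icc (-(B : ℤ)) B).filter (fun n => n < ⌊x⌋) = Finset.Ico (-(B : ℤ)) ⌊x⌋ := by
    ext n
    simp only [Finset.mem_filter, Finset.mem_Icc, Finset.mem_Ico]
    omega
  rw [hfil, Int.card_Ico, nsmul_eq_mul]
  have hcard : (((⌊x⌋ - -(B : ℤ)).toNat : ℕ) : ℝ) = (⌊x⌋ : ℝ) + B := by
    have h : ((⌊x⌋ - -(B : ℤ)).toNat : ℤ) = ⌊x⌋ + B := by
      rw [Int.toNat_of_nonneg (by omega)]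
      ring
    exact_mod_cast h
  rw [hcard]
  simp only [b2]
  rcases le_or_gt δ (Int.fract x) with h | h
  · rw [c1 h, min_eq_left h]
    have : (⌊x⌋ : ℝ) = x - Int.fract x := by linarith
    rw [this]
    ring
  · rw [c2 h, min_eq_right h.le]
    have : (⌊x⌋ : ℝ) = x - Int.fract x := by linarith
    rw [this]
    ring

end Pool.Agent.U397.NG
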