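import Pool.Agent.U180.NG.Stm

/-!
# Project NG, package TENT: the tent function in terms of the Bernoulli function
-/

set_option autoImplicit false

namespace Pool.Agent.U397.NG

open Pool.Agent.U180.NG

theorem fract_shift (x s : ℝ) (h0 : 0 ≤ s) (h1 : s ≤ 1) :
    (s ≤ Int.fract x → Int.fract (x - s) = Int.fract x - s) ∧
    (Int.fract x < s → Int.fract (x - s) = Int.fract x - s + 1) := by
  have hu0 := Int.fract_nonneg x
  have hu1 := Int.fract_lt_one x
  have hx : (⌊x⌋ : ℝ) + Int.fract x = x := Int.floor_add_fract x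
  constructor
  · intro h
    rw [Int.fract_eq_iff]
    refine ⟨by linarith, by linarith, ⌊x⌋, by linarith⟩
  · intro h
    rw [Int.fract_eq_iff]
    refine ⟨by linarith, by linarith, ⌊x⌋ - 1, ?_⟩
    push_cast
    linarith

theorem t_TENT : S_TENT := by
  intro δ x hδ hδ1
  have hu0 := Int.fract_nonneg x
  have hu1 := Int.fract_lt_one x
  obtain ⟨a1, a2⟩ := fract_shift x (δ / 2) (by linarith) (by linarith)
  obtain ⟨c1, c2⟩ := fract_shift x δ hδ.le hδ1
  simp only [b2]
  generalize hu : Int.fract x = u at *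
  rcases le_or_gt δ u with h | h
  · -- `u ≥ δ`
    rw [a1 (by linarith), c1 h]
    have hc : clamp δ u = δ := by
      unfold clamp
      rw [max_eq_right hu0, min_eq_left h]
    rw [hc, div_self hδ.ne']
    have : δ / 8 - (u ^ 2 - u + 1 / 6 - 2 * ((u - δ / 2) ^ 2 - (u - δ / 2) + 1 / 6) +
        ((u - δ) ^ 2 - (u - δ) + 1 / 6)) / (4 * δ) = 0 := by
      field_simp
      ring
    rw [this]
    simp
  · have hc : clamp δ u = u := by
      unfold clamp
      rw [max_eq_right hu0, min_eq_right h.le]
    rw [hc, c2 h]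
    rcases le_or_gt (δ / 2) u with h' | h'
    · rw [a1 h']
      have : δ / 8 - (u ^ 2 - u + 1 / 6 - 2 * ((u - δ / 2) ^ 2 - (u - δ / 2) + 1 / 6) +
        ((u - δ + 1) ^ 2 - (u - δ + 1) + 1 / 6)) / (4 * δ) = (δ - u) / (2 * δ) := by
        field_simp
        ring
      rw [this]
      have e : u / δ * (1 - u / δ) - (δ - u) / (2 * δ) = (δ - u) * (2 * u - δ) / (2 * δ ^ 2) := by
        field_simp
      have : 0 ≤ (δ - u) * (2 * u - δ) / (2 * δ ^ 2) := by
        apply div_nonneg
        · apply mul_nonneg <;> linarith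
        · positivity
      linarith
    · rw [a2 h']
      have : δ / 8 - (u ^ 2 - u + 1 / 6 - 2 * ((u - δ / 2 + 1) ^ 2 - (u - δ / 2 + 1) + 1 / 6) +
        ((u - δ + 1) ^ 2 - (u - δ + 1) + 1 / 6)) / (4 * δ) = u / (2 * δ) := by
        field_simp
        ring
      rw [this]
      have e : u / δ * (1 - u / δ) - u / (2 * δ) = u * (δ - 2 * u) / (2 * δ ^ 2) := by
        field_simp
        ring
      have : 0 ≤ u * (δ - 2 * u) / (2 * δ ^ 2) := by
        apply div_nonneg
        · apply mul_nonneg <;> linarith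
        · positivity
      linarith

end Pool.Agent.U397.NG
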